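import Pool.Agent.Helper39.NS.Seq

set_option autoImplicit false

open MeasureTheory Set Filter Topology

namespace Pool.Agent.Results.MP_2d1ae5_an.OwnStatement

/-- three-dimensional Euclidean space -/
abbrev E3 : Type := EuclideanSpace ℝ (Fin 3)

/-- the partial derivative `∂_i f (x)` of a map on `ℝ³` -/
noncomputable def pd {F : Type} [NormedAddCommGroup F] [NormedSpace ℝ F] (i : Fin 3) (f : E3 → F) (x : E3) : F :=
  fderiv ℝ f x (EuclideanSpace.basisFun (Fin 3) ℝ i)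

/-- `(v, p)` is a smooth finite-energy solution of the Navier-Stokes equations with unit viscosity
on `ℝ³ × (-1, 0)`: both are smooth there,
`∂_t v - Δ v + (v · ∇) v + ∇ p = 0` and `∇ · v = 0` at every point, `v` is bounded in `L²(ℝ³)`
uniformly in time, and `∇ v` is square integrable in space-time. -/
structure SmoothFiniteEnergySolution (v : ℝ → E3 → E3) (p : ℝ → E3 → ℝ) : Prop where
  smooth_v : ContDiffOn ℝ (⊤ : ℕ∞) (Function.uncurry v) (Ioo (-1 : ℝ) 0 ×ˢ univ)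
  smooth_p : ContDiffOn ℝ (⊤ : ℕ∞) (Function.uncurry p) (Ioo (-1 : ℝ) 0 ×ˢ univ)
  momentum : ∀ s ∈ Ioo (-1 : ℝ) 0, ∀ x : E3, deriv (fun τ => v τ x) s - (∑ i, pd i (pd i (v s)) x)
      + (∑ i, v s x i • pd i (v s) x) + gradient (p s) x = 0
  divfree : ∀ s ∈ Ioo (-1 : ℝ) 0, ∀ x : E3, ∑ i, pd i (v s) x i = 0
  energy : ∃ K : ℝ, ∀ s ∈ Ioo (-1 : ℝ) 0, ∫⁻ x, ‖v s x‖ₑ ^ 2 ≤ ENNReal.ofReal K
  dissipation : (∫⁻ s in Ioo (-1 : ℝ) 0, ∫⁻ x, ‖fderiv ℝ (v s) x‖ₑ ^ 2) < ⊤

/-- the space-time origin is a regular point of `v`: `v` is bounded on `B(0,r) × (-r², 0)` -/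
def RegularAtOrigin (v : ℝ → E3 → E3) : Prop :=
  ∃ r > 0, ∃ B : ℝ, ∀ s ∈ Ioo (-r ^ 2) 0, ∀ x ∈ Metric.ball (0 : E3) r, ‖v s x‖ ≤ B

/-- `L` is the limit value `v(0,0)` of `v` at the space-time origin, from times before `0` -/
def HasValueAtOrigin (v : ℝ → E3 → E3) (L : E3) : Prop :=
  Tendsto (Function.uncurry v) (𝓝[Ioo (-1 : ℝ) 0 ×ˢ univ] ((0 : ℝ), (0 : E3))) (𝓝 L)

lemma sum_pd (f : E3 → E3) (x w : E3) : ∑ i, w i • pd i f x = fderiv ℝ f x w := by
  have h : w = ∑ i, w i • EuclideanSpace.basisFun (Fin 3) ℝ i := by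
    ext j
    fin_cases j <;> simp [EuclideanSpace.basisFun_apply, Fin.sum_univ_three]
  conv_rhs => rw [h]
  simp only [map_sum, map_smul, pd]

lemma trace_eq (T : E3 →L[ℝ] E3) :
    LinearMap.trace ℝ E3 T.toLinearMap = ∑ i, (T (EuclideanSpace.basisFun (Fin 3) ℝ i)) i := by
  rw [LinearMap.trace_eq_matrix_trace ℝ (EuclideanSpace.basisFun (Fin 3) ℝ).toBasis, Matrix.trace]
  refine Finset.sum_congr rfl fun i _ => ?_
  rw [Matrix.diag_apply, LinearMap.toMatrix_apply]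
  simp

lemma ofIsSol {v : ℝ → E3 → E3} {p : ℝ → E3 → ℝ} (h : Pool.Agent.Helper39.NS.IsSol v p) :
    SmoothFiniteEnergySolution v p where
  smooth_v := h.smooth_v
  smooth_p := h.smooth_p
  momentum s hs x := by
    rw [← h.eqn s hs x, sum_pd]
    unfold pd
    abel
  divfree s hs x := by
    rw [← h.incomp s hs x, trace_eq]
    rfl
  energy := h.energy
  dissipation := h.dissip

open Pool.Agent.Helper39.NS in
/-- There are a strictly increasing sequence of times `t_n` in `(-1,0)` tending to `0` and smooth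
finite-energy solutions `v_k` with `sup_n ‖v_k(·,t_n)‖_{L³(B(0,1))} = 1` for every `k`, the origin
being a regular point of every `v_k`, such that `|v_k(0,0)|` tends to infinity. -/
theorem result : ∃ t : ℕ → ℝ, StrictMono t ∧ (∀ n, t n ∈ Ioo (-1 : ℝ) 0) ∧ Tendsto t atTop (𝓝 0) ∧
    ∃ (v : ℕ → ℝ → E3 → E3) (p : ℕ → ℝ → E3 → ℝ) (L : ℕ → E3),
      (∀ k, SmoothFiniteEnergySolution (v k) (p k)) ∧
      (∀ k, (⨆ n, eLpNorm (v k (t n)) 3 (volume.restrict (Metric.ball (0 : E3) 1))) = 1) ∧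
      (∀ k, RegularAtOrigin (v k) ∧ HasValueAtOrigin (v k) (L k)) ∧
      Tendsto (fun k => ‖L k‖) atTop atTop := by
  refine ⟨fun k => (tm k : ℝ), ?_, fun n => (tm n).2, tm_tendsto,
    fun k => (theStep k (tm k)).v, fun k => (theStep k (tm k)).p,
    fun k => (theStep k (tm k)).v 0 0, fun k => ofIsSol (theStep k (tm k)).sol, fun k => ?_,
    fun k => ⟨?_, ?_⟩, ?_⟩
  · refine strictMono_nat_of_lt_succ fun k => ?_
    have h1 := tm_half k
    have h2 := (tm k).2.2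
    show (tm k : ℝ) < (tm (k+1) : ℝ)
    linarith
  · rw [iSup_eq k, ENNReal.ofReal_one]
  · have hc : Continuous fun q : ℝ × E3 => ‖(theStep k (tm k)).v q.1 q.2‖ :=
      (theStep k (tm k)).cont.norm
    have hK : IsCompact (Icc (-1 : ℝ) 0 ×ˢ Metric.closedBall (0 : E3) 1) :=
      isCompact_Icc.prod (isCompact_closedBall _ _)
    obtain ⟨B, hB⟩ := hK.bddAbove_image hc.continuousOn
    refine ⟨1, one_pos, B, fun s hs x hx => ?_⟩
    refine hB ⟨(s, x), ⟨⟨?_, hs.2.le⟩, Metric.ball_subset_closedBall hx⟩, rfl⟩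
    have := hs.1
    norm_num at this
    exact this.le
  · exact ((theStep k (tm k)).cont.tendsto (0, 0)).mono_left nhdsWithin_le_nhds
  · refine tendsto_atTop_mono (fun k => (theStep k (tm k)).big.le) ?_
    exact tendsto_natCast_atTop_atTop

end Pool.Agent.Results.MP_2d1ae5_an.OwnStatement
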